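import Pool.Agent.H62.UN.Targets

/-! HRD: horizontal prime divisors. -/

set_option autoImplicit false

namespace Pool.Agent.H37.UNT

open Polynomial Pool.Agent.H17.UN Pool.Agent.H62.UN

theorem HRD_one {E : Type} [Field E] {o : E → ℤ} (h : IsVal o) : o 1 = 0 := by
  have h1 := h.mul 1 1 one_ne_zero one_ne_zero
  rw [mul_one] at h1
  omega

theorem HRD_inv {E : Type} [Field E] {o : E → ℤ} (h : IsVal o) (x : E) (hx : x ≠ 0) :
    o x⁻¹ = -o x := by
  have h1 := h.mul x x⁻¹ hx (inv_ne_zero hx)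
  rw [mul_inv_cancel₀ hx, HRD_one h] at h1
  omega

theorem HRD_const {k F : Type} [Field k] [Field F] [Algebra k F] {n : ℕ}
    {A : Fin n → Subalgebra k F} (v : PrimeDivisor A) (c : k) : v.ord (algebraMap k F c) = 0 := by
  rcases eq_or_ne c 0 with rfl | hc
  · rw [map_zero, v.ord_zero]
  · obtain ⟨i, hi⟩ := pd_ctr v
    have h1 := hi.nn _ ((A i).algebraMap_mem c)
    have h2 := hi.nn _ ((A i).algebraMap_mem c⁻¹)
    rw [map_inv₀, HRD_inv (pd_val v) _ (by rwa [Ne, map_eq_zero])] at h2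
    omega

theorem HRD_poly {k F : Type} [Field k] [IsAlgClosed k] [Field F] [Algebra k F] {s y z : F}
    (hs : Transcendental k s) (v : PrimeDivisor (ch k s y z)) (hv : Hor v) :
    ∀ (n : ℕ) (p : k[X]), p.natDegree ≤ n → p ≠ 0 → v.ord (aeval s p) = 0 := by
  have hne : ∀ p : k[X], p ≠ 0 → aeval s p ≠ 0 := fun p hp h => hs ⟨p, hp, h⟩
  intro n
  induction n with
  | zero =>
    intro p hp hp0
    rw [eq_C_of_natDegree_eq_zero (Nat.le_zero.1 hp), aeval_C]
    exact HRD_const v _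
  | succ n ih =>
    intro p hp hp0
    rcases Nat.eq_zero_or_pos p.natDegree with h0 | h0
    · exact ih p (by omega) hp0
    · obtain ⟨r, hr⟩ := IsAlgClosed.exists_root p (by
        intro hd
        rw [degree_eq_natDegree hp0] at hd
        have h1 : p.natDegree = 0 := by exact_mod_cast hd
        omega)
      obtain ⟨q, rfl⟩ := dvd_iff_isRoot.2 hr
      have hq0 : q ≠ 0 := right_ne_zero_of_mul hp0
      have hX : (X - C r : k[X]) ≠ 0 := X_sub_C_ne_zero r
      rw [natDegree_mul hX hq0, natDegree_X_sub_C] at hp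
      rw [map_mul, (pd_val v).mul _ _ (hne _ hX) (hne _ hq0), ih q (by omega) hq0, map_sub,
        aeval_X, aeval_C, hv r, add_zero]

theorem pf_HRD : T_HRD := by
  intro hSC hTAU hKSF hHCT k F _ _ _ _ _ P Q s y z h
  have hs : Transcendental k s := h.ind.transcendental 0
  constructor
  · intro v hv c
    obtain ⟨a, b, hb, hb2, hc⟩ := (hKSF k F s hs).1 c
    rw [hc]
    rcases eq_or_ne a 0 with rfl | ha
    · rw [map_zero, zero_div, v.ord_zero]
    · have ha2 : aeval s a ≠ 0 := fun h => hs ⟨a, ha, h⟩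
      rw [div_eq_mul_inv, (pd_val v).mul _ _ ha2 (inv_ne_zero hb2), HRD_inv (pd_val v) _ hb2,
        HRD_poly hs v hv _ a le_rfl ha, HRD_poly hs v hv _ b le_rfl hb]
      rfl
  · intro o ho hT
    obtain ⟨y₀, z₀, h1, h2, h3⟩ := hSC k P Q h.dP h.dQ h.sep
    obtain ⟨τ, hτ⟩ := hTAU k F P Q s y z h y₀ z₀ h1 h2 h3
    have hH : ∀ a : k, o (s - algebraMap k F a) = 0 := by
      intro a
      have hmem : s - algebraMap k F a ∈ ks k s :=
        (ks k s).sub_mem (IntermediateField.mem_adjoin_simple_self k s)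
          ((ks k s).algebraMap_mem a)
      exact hT ⟨_, hmem⟩
    obtain ⟨k0, k1⟩ := hHCT k F P Q y₀ z₀ s y z τ hτ o ho hT
    rcases lt_or_ge (o z) 0 with hz | hz
    · exact ⟨toPD o ho 1 (k1 hz), rfl, hH⟩
    · exact ⟨toPD o ho 0 (k0 hz), rfl, hH⟩

end Pool.Agent.H37.UNT
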