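import Pool.Agent.H62.UN.Targets

/-! NRM: a coordinate with its pole at a given section. -/

set_option autoImplicit false

namespace Pool.Agent.H37.UNT

open Polynomial Pool.Agent.H17.UN Pool.Agent.H62.UN

theorem NRM_nonneg {κ E : Type} [Field κ] [Field E] [Algebra κ E] {τ : E} {π : κ[X]}
    (hπ : Irreducible π) {o : E → ℤ} (h : IsPl τ π o) : 0 ≤ o τ := by
  have h1 : FiniteMultiplicity π (X : κ[X]) :=
    FiniteMultiplicity.of_not_isUnit hπ.not_isUnit X_ne_zero
  obtain ⟨g, hg, hg2⟩ := h1.exists_eq_pow_mul_and_not_dvd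
  have h2 := h (multiplicity π (X : κ[X])) g hg2
  rw [← hg, aeval_X] at h2
  rw [h2]
  exact Int.natCast_nonneg _

theorem NRM_one {E : Type} [Field E] {o : E → ℤ} (h : IsVal o) : o 1 = 0 := by
  have h1 := h.mul 1 1 one_ne_zero one_ne_zero
  rw [mul_one] at h1
  omega

theorem NRM_inv {E : Type} [Field E] {o : E → ℤ} (h : IsVal o) (x : E) (hx : x ≠ 0) :
    o x⁻¹ = -o x := by
  have h1 := h.mul x x⁻¹ hx (inv_ne_zero hx)
  rw [mul_inv_cancel₀ hx, NRM_one h] at h1
  omega

theorem pf_NRM : T_NRM := by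
  intro hSC hTAU hHRD hHCL k F _ _ _ _ _ P Q s y z h D1 hS
  obtain ⟨y₀, z₀, h1, h2, h3⟩ := hSC k P Q h.dP h.dQ h.sep
  obtain ⟨τ₀, hτ⟩ := hTAU k F P Q s y z h y₀ z₀ h1 h2 h3
  have hT : Triv (k := k) s D1.ord := (hHRD k F P Q s y z h).1 D1 hS.1
  have hc : ∀ c : ks k s, D1.ord (algebraMap (ks k s) F c) = 0 := hT
  rcases hHCL (ks k s) F τ₀ hτ.tr hτ.gen D1.ord (pd_val D1) hc with ⟨π, -, hπ, hpl⟩ | hinf
  · have h0 := NRM_nonneg hπ hpl
    obtain ⟨a, b, hb, hab⟩ := hS.2 τ₀ h0
    have hmem : (aeval s a / aeval s b : F) ∈ ks k s := by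
      have hs : ∀ g : k[X], aeval s g ∈ ks k s := fun g =>
        IntermediateField.algebra_adjoin_le_adjoin k {s} (aeval_mem_adjoin_singleton k s)
      exact (ks k s).div_mem (hs a) (hs b)
    obtain ⟨c, hcv⟩ : ∃ c : ks k s, (c : F) = aeval s a / aeval s b := ⟨⟨_, hmem⟩, rfl⟩
    rw [← hcv] at hab
    rcases hab with hab | hab
    · exfalso
      apply hτ.tr
      rw [hab]
      exact isAlgebraic_algebraMap c
    · have ht0 : τ₀ - (c : F) ≠ 0 := by
        intro h4
        rw [h4, D1.ord_zero] at hab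
        exact lt_irrefl _ hab
      have hτ1 : τ₀ = algebraMap (ks k s) F c + ((τ₀ - (c : F))⁻¹)⁻¹ := by
        rw [inv_inv]
        change τ₀ = (c : F) + _
        ring
      have htr : Transcendental (ks k s) (τ₀ - (c : F))⁻¹ := by
        intro h4
        apply hτ.tr
        rw [hτ1]
        exact (isAlgebraic_algebraMap c).add h4.inv
      have hgen : IntermediateField.adjoin (ks k s) {(τ₀ - (c : F))⁻¹} = ⊤ := by
        rw [eq_top_iff, ← hτ.gen, IntermediateField.adjoin_le_iff, Set.singleton_subset_iff]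
        have hmem2 : (τ₀ - (c : F))⁻¹ ∈ IntermediateField.adjoin (ks k s) {(τ₀ - (c : F))⁻¹} :=
          IntermediateField.mem_adjoin_simple_self _ _
        rw [SetLike.mem_coe]
        have h5 := IntermediateField.add_mem _ (IntermediateField.algebraMap_mem
          (IntermediateField.adjoin (ks k s) {(τ₀ - (c : F))⁻¹}) c)
          (IntermediateField.inv_mem _ hmem2)
        rwa [← hτ1] at h5
      refine ⟨(τ₀ - (c : F))⁻¹, htr, hgen, ?_⟩
      rcases hHCL (ks k s) F _ htr hgen D1.ord (pd_val D1) hc with ⟨π', -, hπ', hpl'⟩ | hinf'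
      · exfalso
        have h6 := NRM_nonneg hπ' hpl'
        rw [NRM_inv (pd_val D1) _ ht0] at h6
        omega
      · exact hinf'
  · exact ⟨τ₀, hτ.tr, hτ.gen, hinf⟩

end Pool.Agent.H37.UNT
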