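import Pool.Agent.H62.UN.Targets

/-! VCL: classification of the prime divisors of the surface. -/

set_option autoImplicit false

namespace Pool.Agent.H37.UNT

open Polynomial Pool.Agent.H17.UN Pool.Agent.H62.UN

theorem VCL_one {E : Type} [Field E] {o : E → ℤ} (h : IsVal o) : o 1 = 0 := by
  have h1 := h.mul 1 1 one_ne_zero one_ne_zero
  rw [mul_one] at h1
  omega

theorem VCL_inv {E : Type} [Field E] {o : E → ℤ} (h : IsVal o) (x : E) (hx : x ≠ 0) :
    o x⁻¹ = -o x := by
  have h1 := h.mul x x⁻¹ hx (inv_ne_zero hx)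
  rw [mul_inv_cancel₀ hx, VCL_one h] at h1
  omega

theorem VCL_const {k F : Type} [Field k] [Field F] [Algebra k F] {n : ℕ}
    {A : Fin n → Subalgebra k F} (v : PrimeDivisor A) (c : k) : v.ord (algebraMap k F c) = 0 := by
  rcases eq_or_ne c 0 with rfl | hc
  · rw [map_zero, v.ord_zero]
  · obtain ⟨i, hi⟩ := pd_ctr v
    have h1 := hi.nn _ ((A i).algebraMap_mem c)
    have h2 := hi.nn _ ((A i).algebraMap_mem c⁻¹)
    rw [map_inv₀, VCL_inv (pd_val v) _ (by rwa [Ne, map_eq_zero])] at h2
    omega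

theorem pf_VCL : F_VCL := by
  intro hCHT hLVR hLVS hVZA k F _ _ _ _ _ P Q s y z h v
  obtain ⟨c0, -, c2, -⟩ := hCHT k F P Q s y z h
  have hval := pd_val v
  have hs0 : s ≠ 0 := by
    have h1 : Transcendental k s := h.ind.transcendental 0
    rintro rfl
    exact h1 isAlgebraic_zero
  have hz0 : z ≠ 0 := by
    have h1 : Transcendental k z := h.ind.transcendental 1
    rintro rfl
    exact h1 isAlgebraic_zero
  by_cases hh : Hor v
  · exact Or.inl hh
  right
  unfold Hor at hh
  push Not at hh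
  obtain ⟨a, ha⟩ := hh
  rcases lt_or_gt_of_ne ha with hneg | hpos
  · -- infinity
    right; right
    have hs : v.ord s < 0 := by
      by_contra hcon
      have hsa : s - algebraMap k F a ≠ 0 := by
        intro h1
        rw [h1, v.ord_zero] at hneg
        exact lt_irrefl _ hneg
      rcases eq_or_ne a 0 with rfl | ha0
      · rw [map_zero, sub_zero] at hneg
        exact hcon hneg
      · have h1 : -algebraMap k F a ≠ 0 := by
          rw [neg_ne_zero, Ne, map_eq_zero]
          exact ha0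
        have h2 := hval.add s (-algebraMap k F a) hs0 h1 (by rwa [← sub_eq_add_neg])
        rw [← sub_eq_add_neg, ← map_neg, VCL_const] at h2
        have h3 := min_le_iff.1 (le_refl (min (v.ord s) 0))
        rcases min_cases (v.ord s) 0 with ⟨h4, -⟩ | ⟨h4, -⟩
        · rw [h4] at h2
          omega
        · rw [h4] at h2
          omega
    obtain ⟨e1, e2, e3⟩ := (hVZA k F P Q s y z h v).2 hs
    obtain ⟨ρ, hρ⟩ := IsAlgClosed.exists_pow_nat_eq Q.leadingCoeff (n := 2) (by norm_num)
    have hP4 : (P.reflect 4).eval 0 = 0 := by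
      rw [← coeff_zero_eq_eval_zero, coeff_reflect]
      apply coeff_eq_zero_of_natDegree_lt
      rw [h.dP, revAt_le (Nat.zero_le 4)]
      norm_num
    have hQ2 : (Q.reflect 2).eval 0 = Q.leadingCoeff := by
      rw [← coeff_zero_eq_eval_zero, coeff_reflect]
      have h4 : revAt 2 0 = 2 := revAt_le (Nat.zero_le 2)
      rw [h4, leadingCoeff, h.dQ]
    have hl : (C ρ * X : k[X]) ^ 2 =
        C ((P.reflect 4).eval 0) + C ((Q.reflect 2).eval 0) * X ^ 2 := by
      rw [hP4, hQ2, ← hρ, mul_pow, C_pow, C_0, zero_add]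
    have hos : 0 < v.ord (s⁻¹ - algebraMap k F 0) := by
      rw [map_zero, sub_zero, VCL_inv hval s hs0]
      omega
    have key := hLVS k F _ _ _ _ _ c2 0 (C ρ * X) hl v.ord hval e3.nn hos
    have hzs : z / s ≠ 0 := div_ne_zero hz0 hs0
    have hdiv : ∀ r : k, 0 < v.ord (y / s ^ 2 - algebraMap k F r * (z / s)) →
        0 < v.ord (y / (s * z) - algebraMap k F r) := by
      intro r hr
      have h5 : y / s ^ 2 - algebraMap k F r * (z / s) =
          (y / (s * z) - algebraMap k F r) * (z / s) := by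
        field_simp
      have h6 : y / (s * z) - algebraMap k F r ≠ 0 := by
        intro h7
        rw [h5, h7, zero_mul, v.ord_zero] at hr
        exact lt_irrefl _ hr
      rw [h5, hval.mul _ _ h6 hzs, e2, add_zero] at hr
      exact hr
    rcases key with key | key
    · refine ⟨ρ, e1, hρ, hdiv ρ ?_⟩
      rwa [map_mul, aeval_C, aeval_X] at key
    · refine ⟨-ρ, e1, by rw [neg_sq]; exact hρ, hdiv (-ρ) ?_⟩
      rw [map_mul, aeval_C, aeval_X] at key
      rwa [map_neg, neg_mul, sub_neg_eq_add]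
  · -- finite
    obtain ⟨e1, e2, e3⟩ := (hVZA k F P Q s y z h v).1 a hpos
    by_cases hPQ : (P * Q).eval a = 0
    · right; left
      rw [eval_mul, mul_eq_zero] at hPQ
      rcases hPQ with hPa | hQa
      · obtain ⟨ρ, hρ⟩ := IsAlgClosed.exists_pow_nat_eq (Q.eval a) (n := 2) (by norm_num)
        have hl : (C ρ * X : k[X]) ^ 2 = C (P.eval a) + C (Q.eval a) * X ^ 2 := by
          rw [hPa, ← hρ, mul_pow, C_pow, C_0, zero_add]
        have key := hLVS k F _ _ _ _ _ c0 a (C ρ * X) hl v.ord hval e3.nn hpos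
        rw [map_mul, aeval_C, aeval_X] at key
        rcases key with key | key
        · exact ⟨a, ρ, e1, Or.inr ⟨hPa, hρ, key⟩⟩
        · refine ⟨a, -ρ, e1, Or.inr ⟨hPa, by rw [neg_sq]; exact hρ, ?_⟩⟩
          rwa [map_neg, neg_mul, sub_neg_eq_add]
      · obtain ⟨ρ, hρ⟩ := IsAlgClosed.exists_pow_nat_eq (P.eval a) (n := 2) (by norm_num)
        have hl : (C ρ : k[X]) ^ 2 = C (P.eval a) + C (Q.eval a) * X ^ 2 := by
          rw [hQa, ← hρ, C_pow, C_0, zero_mul, add_zero]
        have key := hLVS k F _ _ _ _ _ c0 a (C ρ) hl v.ord hval e3.nn hpos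
        rw [aeval_C] at key
        rcases key with key | key
        · exact ⟨a, ρ, e1, Or.inl ⟨hQa, hρ, key⟩⟩
        · refine ⟨a, -ρ, e1, Or.inl ⟨hQa, by rw [neg_sq]; exact hρ, ?_⟩⟩
          rwa [map_neg, sub_neg_eq_add]
    · left
      refine ⟨a, hPQ, e1, fun v' hv' => ?_⟩
      obtain ⟨-, -, e3'⟩ := (hVZA k F P Q s y z h v').1 a hv'
      obtain ⟨o, -, -, -, -, ho⟩ := hLVR k F P Q s y z c0 a hPQ
      have h1 := ho v.ord hval e3 hpos
      have h2 := ho v'.ord (pd_val v') e3' hv'
      exact pd_ext (h2.trans h1.symm)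

end Pool.Agent.H37.UNT
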